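import Pool.Agent.Lib.MP_0a5adf_nt.TP.Interfaces

/-!
TAO+, module PATH: the trajectory stays close to the line.
-/

set_option autoImplicit false

namespace Pool.Agent.Lib.MP_0a5adf_nt.H82

open Finset Pool.Agent.Lib.MP_0a5adf_nt.TP

theorem two_pow_th (x : ℝ) : (2 : ℝ) ^ (th * x) = (3 : ℝ) ^ x := by
  have h : (2 : ℝ) ^ th = 3 := by
    rw [th]
    exact Real.rpow_logb (by norm_num) (by norm_num) (by norm_num)
  rw [Real.rpow_mul (by norm_num), h]

theorem th_pos : 0 < th := by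
  rw [th]
  exact Real.logb_pos (by norm_num) (by norm_num)

/-- `3 ^ s / 2 ^ j` in terms of the drift -/
theorem W_eq (s j : ℕ) : (3 : ℝ) ^ s / 2 ^ j = (2 : ℝ) ^ (-(mu * j) + th * (2 * s - j) / 2) := by
  have h1 : (3 : ℝ) ^ s = (2 : ℝ) ^ (th * s) := by
    rw [two_pow_th, Real.rpow_natCast]
  have h2 : (2 : ℝ) ^ j = (2 : ℝ) ^ (j : ℝ) := (Real.rpow_natCast _ _).symm
  rw [h1, h2, ← Real.rpow_sub (by norm_num)]
  congr 1
  rw [mu]
  ring

theorem path (hD : DynStatement) : PathStatement := by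
  intro d N j D a ha hj hod
  obtain ⟨h1, -, h3, -⟩ := hD
  obtain ⟨hsub, hcard, heq⟩ := h1 d N j
  have hn := h3 j (par d N j) hsub
  rw [hcard] at hn heq
  set s := od d j N with hs
  set P := num j (par d N j) with hP
  set M := (T d)^[j] N with hM
  have h2j : (0 : ℝ) < 2 ^ j := by positivity
  have hW := W_eq s j
  set W : ℝ := (3 : ℝ) ^ s / 2 ^ j with hWdef
  have hW0 : 0 < W := by positivity
  -- the real form of the affine formula
  have heqR : (2 : ℝ) ^ j * M = 3 ^ s * N + (sg d : ℝ) * P := by exact_mod_cast heq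
  have hPle : (P : ℝ) ≤ 3 ^ s * 2 ^ j := by
    have : P ≤ 3 ^ s * 2 ^ j := (Nat.le_add_right _ _).trans hn
    exact_mod_cast this
  have hP0 : (0 : ℝ) ≤ P := Nat.cast_nonneg _
  have hN : (2 : ℝ) * 2 ^ j ≤ N := by
    have e1 : 2 ^ (j + 1) ≤ N := (Nat.pow_le_pow_right (by norm_num) hj).trans ha
    have : ((2 ^ (j + 1) : ℕ) : ℝ) ≤ N := by exact_mod_cast e1
    rw [Nat.cast_pow, pow_succ] at this
    push_cast at this
    linarith
  have hMeq : (M : ℝ) = W * N + (sg d : ℝ) * (P / 2 ^ j) := by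
    rw [hWdef]
    field_simp
    linarith
  have hP2 : (P : ℝ) / 2 ^ j ≤ W * (N / 2) := by
    rw [div_le_iff₀ h2j, hWdef]
    have : (3 : ℝ) ^ s / 2 ^ j * (N / 2) * 2 ^ j = 3 ^ s * (N / 2) := by field_simp
    rw [this]
    have h3s : (0 : ℝ) < 3 ^ s := by positivity
    nlinarith
  have hP20 : 0 ≤ (P : ℝ) / 2 ^ j := by positivity
  have hN0 : (0 : ℝ) ≤ N := Nat.cast_nonneg _
  have hlow : W * (N / 2) ≤ M := by
    rw [hMeq]
    cases d
    · simp only [sg, Bool.false_eq_true, if_false]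
      push_cast
      linarith
    · simp only [sg, if_true]
      push_cast
      nlinarith [mul_nonneg hW0.le hN0]
  have hup : (M : ℝ) ≤ 2 * (W * N) := by
    rw [hMeq]
    cases d
    · simp only [sg, Bool.false_eq_true, if_false]
      push_cast
      nlinarith [mul_nonneg hW0.le hN0]
    · simp only [sg, if_true]
      push_cast
      nlinarith [mul_nonneg hW0.le hN0]
  have hth := th_pos
  rw [abs_le] at hod
  have e1 : (2 : ℝ) ^ (-(mu * j) - th * D / 2) ≤ W := by
    rw [hW]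
    apply Real.rpow_le_rpow_of_exponent_le (by norm_num)
    nlinarith [hod.1]
  have e2 : W ≤ (2 : ℝ) ^ (-(mu * j) + th * D / 2) := by
    rw [hW]
    apply Real.rpow_le_rpow_of_exponent_le (by norm_num)
    nlinarith [hod.2]
  constructor
  · calc (N : ℝ) / 2 * (2 : ℝ) ^ (-(mu * j) - th * D / 2) ≤ (N : ℝ) / 2 * W := by gcongr
      _ = W * (N / 2) := by ring
      _ ≤ M := hlow
  · calc (M : ℝ) ≤ 2 * (W * N) := hup
      _ = 2 * (N : ℝ) * W := by ring
      _ ≤ 2 * (N : ℝ) * (2 : ℝ) ^ (-(mu * j) + th * D / 2) := by gcongr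

end Pool.Agent.Lib.MP_0a5adf_nt.H82
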